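import Pool.Agent.Helper66_D1.Stmts
import Pool.Agent.Helper94_PP.StmtsKR

/-! UND and CCD of part D1. -/

set_option autoImplicit false

open scoped BigOperators

noncomputable section

namespace Pool.Agent.PP.D1H11

open Pool.Agent.Helper51_AWC Pool.Agent.Helper79_WRA Pool.Agent.PP

theorem mrep_apply {F : Type} [Field F] {G : Type} [Group G] {n : ℕ}
    (σ : G →* Matrix (Fin n) (Fin n) F) (g : G) (v : Fin n → F) :
    mrep σ g v = (σ g).mulVec v := by
  show Matrix.toLinAlgEquiv' (σ g) v = _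
  rw [Matrix.toLinAlgEquiv'_apply]

/-- the trace is determined by an equivalence on the quotients -/
theorem tr_eq {F : Type} [Field F] {A : Type} [Group A] {m m' : ℕ}
    (κ : A →* Matrix (Fin m) (Fin m) F) (κ' : A →* Matrix (Fin m') (Fin m') F)
    (u : (Fin m → F) ≃ₗ[F] (Fin m' → F))
    (hu : ∀ t w, u ((κ t).mulVec w) = (κ' t).mulVec (u w)) : tr κ = tr κ' := by
  funext t
  have h1 : u.conj (Matrix.toLin' (κ t)) = Matrix.toLin' (κ' t) := by
    apply LinearMap.ext
    intro w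
    rw [LinearEquiv.conj_apply_apply, Matrix.toLin'_apply, hu, LinearEquiv.apply_symm_apply,
      Matrix.toLin'_apply]
  have h2 : LinearMap.trace F _ (u.conj (Matrix.toLin' (κ t))) =
      LinearMap.trace F _ (Matrix.toLin' (κ t)) := LinearMap.trace_conj' _ u
  rw [h1] at h2
  show (κ t).trace = (κ' t).trace
  rw [← Matrix.trace_toLin'_eq, ← Matrix.trace_toLin'_eq]
  exact h2.symm

theorem fix_stable {F : Type} [Field F] {G : Type} [Group G] {V : Type} [AddCommGroup V]
    [Module F V] (ρ : Representation F G V) (P : Subgroup G) {g : G}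
    (hg : g ∈ Subgroup.normalizer (P : Set G)) {v : V} (hv : v ∈ fixV ρ P) : ρ g v ∈ fixV ρ P := by
  intro p hp
  have h1 : g⁻¹ * p * g ∈ P := by
    have := (Subgroup.mem_normalizer_iff.1 (inv_mem hg)) p
    rw [inv_inv] at this
    exact this.1 hp
  have h2 : ρ (g⁻¹ * p * g) v = v := hv _ h1
  have h3 : ρ p (ρ g v) = ρ g (ρ (g⁻¹ * p * g) v) := by
    rw [← Module.End.mul_apply, ← Module.End.mul_apply, ← map_mul, ← map_mul]
    congr 2
    group
  rw [h3, h2]

/-- two representations on `V^P / (∑ P) V` are equivalent -/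
theorem hv_unique {F : Type} [Field F] {G : Type} [Group G] {V : Type} [AddCommGroup V]
    [Module F V] (ρ : Representation F G V) (P : Subgroup G) {A : Type} [Group A] (j : A →* G)
    (hj : j.range = Subgroup.normalizer (P : Set G)) {m m' : ℕ}
    (κ : A →* Matrix (Fin m) (Fin m) F) (κ' : A →* Matrix (Fin m') (Fin m') F)
    (π : V →ₗ[F] (Fin m → F)) (π' : V →ₗ[F] (Fin m' → F)) (h : HV j P κ ρ π)
    (h' : HV j P κ' ρ π') : tr κ = tr κ' := by
  let a : fixV ρ P →ₗ[F] (Fin m → F) := π ∘ₗ (fixV ρ P).subtype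
  let a' : fixV ρ P →ₗ[F] (Fin m' → F) := π' ∘ₗ (fixV ρ P).subtype
  have ha : LinearMap.range a = ⊤ := by
    rw [LinearMap.range_eq_top]
    intro w
    obtain ⟨v, hv, hw⟩ := h.sur w
    exact ⟨⟨v, hv⟩, hw⟩
  have ha' : LinearMap.range a' = ⊤ := by
    rw [LinearMap.range_eq_top]
    intro w
    obtain ⟨v, hv, hw⟩ := h'.sur w
    exact ⟨⟨v, hv⟩, hw⟩
  have hk : LinearMap.ker a = LinearMap.ker a' := by
    ext v
    rw [LinearMap.mem_ker, LinearMap.mem_ker]
    exact (h.ker v.1 v.2).trans (h'.ker v.1 v.2).symm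
  let u1 := a.quotKerEquivOfSurjective (LinearMap.range_eq_top.1 ha)
  let u2 := a'.quotKerEquivOfSurjective (LinearMap.range_eq_top.1 ha')
  let u : (Fin m → F) ≃ₗ[F] (Fin m' → F) :=
    u1.symm.trans ((Submodule.quotEquivOfEq _ _ hk).trans u2)
  have hu : ∀ v : fixV ρ P, u (a v) = a' v := by
    intro v
    show u2 (Submodule.quotEquivOfEq _ _ hk (u1.symm (a v))) = _
    have h1 : u1.symm (a v) = Submodule.Quotient.mk v := by
      rw [LinearEquiv.symm_apply_eq]
      rfl
    rw [h1]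
    rfl
  refine tr_eq κ κ' u fun t w => ?_
  obtain ⟨v, hv, rfl⟩ := h.sur w
  have hjt : j t ∈ Subgroup.normalizer (P : Set G) := by
    rw [← hj]
    exact ⟨t, rfl⟩
  have h1 := h.int t v hv
  have h2 := h'.int t v hv
  have h3 := hu ⟨v, hv⟩
  have h4 := hu ⟨ρ (j t) v, fix_stable ρ P hjt hv⟩
  rw [← h1]
  calc u (π (ρ (j t) v)) = u (a ⟨ρ (j t) v, fix_stable ρ P hjt hv⟩) := rfl
    _ = a' ⟨ρ (j t) v, fix_stable ρ P hjt hv⟩ := h4
    _ = (κ' t).mulVec (a' ⟨v, hv⟩) := h2
    _ = (κ' t).mulVec (u (a ⟨v, hv⟩)) := by rw [h3]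

/-- transport along an isomorphism of representations -/
theorem hv_transport {F : Type} [Field F] {G : Type} [Group G] {V V' : Type} [AddCommGroup V]
    [Module F V] [AddCommGroup V'] [Module F V'] (ρ : Representation F G V)
    (ρ' : Representation F G V') [Finite G] (T : V ≃ₗ[F] V') (hT : ∀ g v, T (ρ g v) = ρ' g (T v))
    (P : Subgroup G) {A : Type} [Group A] (j : A →* G) {m : ℕ}
    (κ : A →* Matrix (Fin m) (Fin m) F) (π : V' →ₗ[F] (Fin m → F)) (h : HV j P κ ρ' π) :
    HV j P κ ρ (π ∘ₗ T.toLinearMap) := by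
  have hT' : ∀ g v, T.symm (ρ' g v) = ρ g (T.symm v) := fun g v => by
    rw [LinearEquiv.symm_apply_eq, hT, LinearEquiv.apply_symm_apply]
  have hfix : ∀ v, v ∈ fixV ρ P ↔ T v ∈ fixV ρ' P := by
    intro v
    constructor
    · intro hv p hp
      rw [← hT, hv p hp]
    · intro hv p hp
      have := hv p hp
      rw [← hT] at this
      exact T.injective this
  have hnrm : ∀ v, T ((∑ᶠ p : P, ρ p) v) = (∑ᶠ p : P, ρ' p) (T v) := by
    intro v
    classical
    haveI := Fintype.ofFinite P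
    rw [finsum_eq_sum_of_fintype, finsum_eq_sum_of_fintype, LinearMap.sum_apply,
      LinearMap.sum_apply, map_sum]
    exact Finset.sum_congr rfl fun p _ => hT p v
  have hn : ∀ v, v ∈ nrmV ρ P ↔ T v ∈ nrmV ρ' P := by
    intro v
    constructor
    · rintro ⟨w, rfl⟩
      exact ⟨T w, (hnrm w).symm⟩
    · rintro ⟨w, hw⟩
      refine ⟨T.symm w, ?_⟩
      apply T.injective
      rw [hnrm, LinearEquiv.apply_symm_apply]
      exact hw
  refine ⟨fun x v hv => ?_, fun v hv => ?_, fun w => ?_⟩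
  · show π (T (ρ (j x) v)) = _
    rw [hT]
    exact h.int x (T v) ((hfix v).1 hv)
  · rw [hn v]
    exact h.ker (T v) ((hfix v).1 hv)
  · obtain ⟨v, hv, rfl⟩ := h.sur w
    refine ⟨T.symm v, ?_, ?_⟩
    · rw [hfix, LinearEquiv.apply_symm_apply]
      exact hv
    · show π (T (T.symm v)) = _
      rw [LinearEquiv.apply_symm_apply]

/-- UND -/
theorem und (hibc : IbcStmt) : UndStmt := by
  intro ℓ F _ hF G _ _ P A _ _ j hj n n' σ σ' hσ hσ' htr m m' κ κ' π π' _ _ h h'
  obtain ⟨X, Y, -, hXY, hYX, hint⟩ := hibc ℓ F hF G n n' σ σ' hσ hσ' htr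
  let T : (Fin n → F) ≃ₗ[F] (Fin n' → F) :=
    { toFun := fun v => X.mulVec v
      map_add' := fun v w => Matrix.mulVec_add X v w
      map_smul' := fun c v => Matrix.mulVec_smul X c v
      invFun := fun v => Y.mulVec v
      left_inv := fun v => by
        show Y.mulVec (X.mulVec v) = v
        rw [Matrix.mulVec_mulVec, hYX, Matrix.one_mulVec]
      right_inv := fun v => by
        show X.mulVec (Y.mulVec v) = v
        rw [Matrix.mulVec_mulVec, hXY, Matrix.one_mulVec] }
  have hT : ∀ g v, T (mrep σ g v) = mrep σ' g (T v) := by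
    intro g v
    rw [mrep_apply, mrep_apply]
    show X.mulVec ((σ g).mulVec v) = (σ' g).mulVec (X.mulVec v)
    rw [Matrix.mulVec_mulVec, Matrix.mulVec_mulVec, hint]
  exact hv_unique (mrep σ) P j hj κ κ' π (π' ∘ₗ T.toLinearMap) h
    (hv_transport (mrep σ) (mrep σ') T hT P j κ' π' h')

/-- CCD -/
theorem ccd (hced : CedStmt) (hchd : ChdStmt) : CcdStmt := by
  intro ℓ _ F _ hF G _ _ N P b hb hU e he heb
  rw [hchd ℓ F hF G N P b hb hU e he heb, hced ℓ F hF G N P b hb e he heb, sub_self]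

end Pool.Agent.PP.D1H11
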